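import Pool.Agent.N65.GP.Defs2
import Pool.Agent.N65.GP.Main
set_option autoImplicit false

/-!
# Project GP, second part: leaf NN (the kernels determine everything)
-/

namespace Pool.Agent.N403.GP2.NN

open Complex Polynomial Pool.Agent.N65.GP

theorem t_NN (hHD : S_HD) (hPS : S_PS) (hRAD : S_RAD) (hIRR : S_IRR) : S_NN := by
  intro k hk C R b ρ δ hρ hδ hirr d γ hγ hInd R' Z hZ s β hrel
  obtain ⟨R₁, hR₁⟩ := exists_bd δ
  obtain ⟨R₂, hR₂⟩ : ∃ R₂, R₂ = max (max R R') R₁ := ⟨_, rfl⟩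
  have hle1 : R ≤ R₂ := by rw [hR₂]; exact (le_max_left _ _).trans (le_max_left _ _)
  have hle2 : R' ≤ R₂ := by rw [hR₂]; exact (le_max_right _ _).trans (le_max_left _ _)
  have hle3 : R₁ ≤ R₂ := by rw [hR₂]; exact le_max_right _ _
  have hBγ : Bd γ R₂ := fun l t => ⟨(hγ l t).1.trans_le hle1, (hγ l t).2.trans_le hle1⟩
  have hBδ : Bd δ R₂ := fun l t => ⟨(hR₁ l t).1.trans_le hle3, (hR₁ l t).2.trans_le hle3⟩
  have hker : ∀ m c : ℂ, R₂ < ‖m‖ → R₂ < ‖c‖ → ∑ l, (s l : ℂ) * (γ l).int (ker m c) +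
      ∑ i, ((β i / (2 * Real.pi) : ℝ) : ℂ) * (δ i).int (ker m c) = 0 := by
    intro m₀ c hm₀ hc
    have hcont : ContinuousOn (fun m => ∑ l, (s l : ℂ) * (γ l).int (ker m c) +
        ∑ i, ((β i / (2 * Real.pi) : ℝ) : ℂ) * (δ i).int (ker m c)) {m | R₂ < ‖m‖} := by
      refine ContinuousOn.add (continuousOn_finsetSum _ fun l _ => ?_)
        (continuousOn_finsetSum _ fun i _ => ?_)
      · exact continuousOn_const.mul ((hHD (γ l) R₂ (hBγ l)).2.1 c hc).continuousOn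
      · exact continuousOn_const.mul ((hHD (δ i) R₂ (hBδ i)).2.1 c hc).continuousOn
    by_contra hne
    have hopen : IsOpen ({m : ℂ | R₂ < ‖m‖} ∩ (fun m => ∑ l, (s l : ℂ) * (γ l).int (ker m c) +
        ∑ i, ((β i / (2 * Real.pi) : ℝ) : ℂ) * (δ i).int (ker m c)) ⁻¹' {0}ᶜ) :=
      hcont.isOpen_inter_preimage (isOpen_lt continuous_const continuous_norm)
        isOpen_compl_singleton
    obtain ⟨m, ⟨hm1, hm2⟩, hm3, hm4⟩ := (hk.sdiff_finite hZ).inter_open_nonempty _ hopen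
      ⟨m₀, hm₀, hne⟩
    exact hm2 (hrel m hm3 hm4 (hle2.trans_lt hm1) c (hle2.trans_lt hc))
  have hps := hPS (Fin d ⊕ Fin C.n) (Sum.elim γ δ)
    (Sum.elim s fun i => β i / (2 * Real.pi)) R₂
    (by
      rintro (l | i) t
      · exact hBγ l t
      · exact hBδ i t)
    (by
      intro m c hm hc
      rw [Fintype.sum_sum_type]
      exact hker m c hm hc)
  simp only [Fintype.sum_sum_type, Sum.elim_inl, Sum.elim_inr] at hps
  have hs : s = 0 := by
    by_contra hs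
    obtain ⟨G, hG, hne⟩ := hInd s hs
    have h1 := hps G
    rw [Finset.sum_eq_zero (s := Finset.univ) (f := fun i =>
      ((β i / (2 * Real.pi) : ℝ) : ℂ) * (δ i).int (fun x y => G.evalEval x y))
      (fun i _ => by rw [hRAD k C R b ρ δ hρ hδ G hG i, mul_zero]), add_zero] at h1
    exact hne h1
  refine ⟨hs, ?_⟩
  have h2 := hIRR k C R b ρ δ hρ hδ hirr (fun i => β i / (2 * Real.pi)) (by
    intro G
    have h1 := hps G
    rw [hs] at h1
    simpa using h1)
  intro i j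
  have h3 := h2 i j
  have h4 : (2 * Real.pi) ≠ 0 := by positivity
  exact (div_left_inj' h4).1 h3

end Pool.Agent.N403.GP2.NN
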